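import Pool.Agent.H7.HD.Targets7

/-!
# MP_e37c09_lc, module VL: `v a (n γ)` is above `f '' γ ∩ a`
-/

set_option autoImplicit false

open Ordinal Cardinal Order Set
open scoped ZFSet

universe u

namespace Pool.Agent.H66.HD.VL

open _root_.HD

theorem clb_all {ρ : Ordinal.{u}} (hρ : IsSuccLimit ρ) : Clb ρ univ :=
  ⟨fun a ha => ⟨succ a, hρ.succ_lt ha, lt_succ a, trivial⟩, fun _ _ _ _ => trivial⟩

theorem pos_one {μ ρ : Ordinal.{u}} (hρ : IsSuccLimit ρ) {X : Set Ordinal.{u}} (h : Pos μ ρ X) :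
    ∃ b < ρ, b ∈ X ∧ Cf μ b := by
  obtain ⟨b, hb, -, h1, h2⟩ := h univ (clb_all hρ)
  exact ⟨b, hb, h1, h2⟩

theorem vl (hTR : T_TR.{u}) (hGX : T_GX.{u}) : T_VL.{u} := by
  intro en N M K lam c d x hw f n hf hn hS
  have hK0 : ℵ₀ < K := (hw.nreg.aleph0_le.trans_lt hw.nm).trans hw.mK
  have hKlim : IsSuccLimit K.ord := Cardinal.isSuccLimit_ord hw.kreg.aleph0_le
  have hKc : K.ord.cof = K := hw.kreg.cof_ord
  have hKc0 : ℵ₀ < K.ord.cof := by rw [hKc]; exact hK0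
  obtain ⟨hg1, hg2, -⟩ := hGX x
  have hlam : lam.cof = K := hw.rc lam hw.kl.le le_rfl hw.reg
  have hlam0 : ℵ₀ < lam.cof := by rw [hlam]; exact hK0
  -- the choice of the indices
  have hch : ∀ γ, γ ∈ {γ | n γ ∈ E en c ∧ ∃ a ∈ f '' Iio γ, K.ord ≤ a ∧ RegHOD a ∧
      ∃ t ∈ f '' Iio γ, t < a ∧ vx en N d x a (n γ) ≤ t} →
      ∃ i, i < γ ∧ ∃ j, j < γ ∧ K.ord ≤ f i ∧ RegHOD (f i) ∧ f j < f i ∧
        vx en N d x (f i) (n γ) ≤ f j := by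
    rintro γ ⟨-, a, ⟨i, hi, rfl⟩, h1, h2, t, ⟨j, hj, rfl⟩, h3, h4⟩
    exact ⟨i, hi, j, hj, h1, h2, h3, h4⟩
  choose! e1 h1 e2 h2 h3 h4 h5 h6 using hch
  obtain ⟨i, hi, hS1⟩ := All.vd M.ord K hw.kreg hK0 _ e1 hS fun b hb _ _ => h1 b hb
  obtain ⟨j, hj, hS2⟩ := All.vd M.ord K hw.kreg hK0 _ e2 hS1 fun b hb _ _ => h2 b hb.1
  have hia : f i < lam := hf.lt i hi
  have hjt : f j < lam := hf.lt j hj
  -- `t < a`
  have hta : f j < f i := by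
    obtain ⟨γ, -, ⟨⟨hγ, hγ1⟩, hγ2⟩, -⟩ := pos_one hKlim hS2
    have := h5 γ hγ
    rwa [hγ1, hγ2] at this
  -- the small set
  have hA : ¬ Pos N.ord lam {z | z ∈ E en d ∧ gx x (f i) z ≤ f j} := by
    intro h
    refine hw.fam.fine (f j) hjt (h.mono fun z _ hz _ => ⟨hz.1, fun hx => ?_⟩)
    exact absurd (hg2 (f i) z (f j) hta hx) (not_lt.2 hz.2)
  have hB1 := All.wa N.ord M.ord lam hlam0 _ hA
  have hB := null_union All.va hlam0 hB1 hw.pos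
  rw [(hTR K M lam n hw.kreg hK0 hw.mreg hn).1] at hB
  obtain ⟨γ, hγK, ⟨⟨⟨hγ, hγ1⟩, hγ2⟩, hγB⟩, hγc⟩ := pos_one hKlim
    (pos_diff All.va hKc0 hS2 hB)
  have hγcof : γ.cof = M := Cardinal.ord_injective hγc
  have hγlim : IsSuccLimit γ := by
    refine Ordinal.one_lt_cof_iff.1 ?_
    rw [hγcof]
    exact Cardinal.one_lt_aleph0.trans_le hw.mreg.aleph0_le
  have hνcof : (n γ).cof = M := by
    rw [(hTR K M lam n hw.kreg hK0 hw.mreg hn).2 γ hγK hγlim, hγcof]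
  have hν0 : ℵ₀ < (n γ).cof := by
    rw [hνcof]
    exact hw.nreg.aleph0_le.trans_lt hw.nm
  have hνlim : IsSuccLimit (n γ) := Ordinal.one_lt_cof_iff.1 (Cardinal.one_lt_aleph0.trans hν0)
  have hn1 : ¬ Pos N.ord (n γ) {z | z ∈ E en d ∧ gx x (f i) z ≤ f j} := fun h =>
    hγB (Or.inl h)
  have hn2 : Pos N.ord (n γ) (E en d) := by
    by_contra h
    exact hγB (Or.inr ⟨hγ.1, h⟩)
  have hv : vx en N d x (f i) (n γ) ≤ f j := by
    have := h6 γ hγ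
    rwa [hγ1, hγ2] at this
  have hmem : vx en N d x (f i) (n γ) ∈
      {w | ¬ Pos N.ord (n γ) {z | z ∈ E en d ∧ w ≤ gx x (f i) z}} := by
    refine csInf_mem ⟨succ (f i), fun h => ?_⟩
    obtain ⟨b, -, hb, -⟩ := pos_one hνlim h
    exact absurd (hb.2.trans (hg1 (f i) b)) (not_le.2 (lt_succ _))
  refine null_union All.va hν0 hn1 hmem (hn2.mono fun z _ hz _ => ?_)
  rcases le_or_gt (gx x (f i) z) (f j) with h | h
  · exact Or.inl ⟨hz, h⟩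
  · exact Or.inr ⟨hz, hv.trans h.le⟩

end Pool.Agent.H66.HD.VL
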